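import Pool.Agent.W805.LR.Cons

set_option autoImplicit false

namespace Pool.Agent.Results.MP_6c3d62_pr.ManyLongCycles

open Finset Equiv

/-- The sum over all unordered pairs of the rates. -/
noncomputable def totalRate {V : Type} [Fintype V] (J : V → V → ℝ) : ℝ := ∑ x, ∑ y, J x y / 2

/-- The probability that random stirring started at the identity, with an independent Poisson clock
of rate `J x y` for every unordered pair `{x, y}`, is at the permutation `g` at time `t`: there are
`n` rings up to time `t` with probability `exp (-R t) (R t)^n / n!`, `R` the total rate, and each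
ring is a ring of the ordered pair `(x, y)` with probability `J x y / (2 R)`. -/
noncomputable def stirLaw {V : Type} [Fintype V] [DecidableEq V] (J : V → V → ℝ) (t : ℝ)
    (g : Perm V) : ℝ :=
  ∑' n : ℕ, Real.exp (-(t * totalRate J)) * t ^ n / (n.factorial : ℝ) *
    ∑ w : Fin n → V × V, (∏ i, J (w i).1 (w i).2 / 2) *
      (if (List.ofFn fun i => swap (w i).1 (w i).2).prod = g then 1 else 0)

/-- The probability of the event `A` under random stirring at time `t`. -/
noncomputable def stirProb {V : Type} [Fintype V] [DecidableEq V] (J : V → V → ℝ) (t : ℝ)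
    (A : Perm V → Prop) : ℝ := open Classical in ∑ g, stirLaw J t g * (if A g then 1 else 0)

/-- Length of the cycle of `g` through `v`. -/
noncomputable def cycleLen {V : Type} [Fintype V] (g : Perm V) (v : V) : ℕ :=
  Nat.card {w : V // g.SameCycle v w}

/-- The `i`-th longest cycle of `g` has length at least `s`: there are `i` points in `i` different
cycles, all of them of length at least `s`. -/
def IthLongest {V : Type} [Fintype V] (g : Perm V) (i : ℕ) (s : ℝ) : Prop :=
  ∃ f : Fin i → V, (∀ a b, a ≠ b → ¬ g.SameCycle (f a) (f b)) ∧ ∀ a, s ≤ cycleLen g (f a)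

/-- Sup-distance in the box `{0, ..., L - 1}^d`. It is at least the distance on the torus. -/
def boxDist {d L : ℕ} (x y : Fin d → ZMod L) : ℕ :=
  univ.sup fun a => (((x a).val : ℤ) - (y a).val).natAbs

/-- Symmetric rates that are at least `lam * distance ^ (-(d + σ))`; otherwise arbitrary. Since
`boxDist` is at least the distance on the torus, the condition with the latter is stronger. -/
def Rates (d L : ℕ) (σ lam : ℝ) (J : (Fin d → ZMod L) → (Fin d → ZMod L) → ℝ) : Prop :=
  (∀ x y, J x y = J y x) ∧ (∀ x, J x x = 0) ∧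
    ∀ x y, x ≠ y → lam * (boxDist x y : ℝ) ^ (-((d : ℝ) + σ)) ≤ J x y

/-- Random stirring on the torus of side `L` in any dimension `d ≥ 1`, with any rates that dominate
an arbitrarily small multiple of `distance ^ (-(d + σ))`, `0 < σ < d` (for instance rate one on the
nearest neighbour edges plus such a weak tail): there is a finite time `t₁` such that for every `i`
there are `ε, c > 0` with `P (p_i (η_L (t)) ≥ ε) ≥ c` for every `t ≥ t₁`, all large `L` and all such
rates. -/
theorem result (d : ℕ) (σ lam : ℝ) (hd : 1 ≤ d) (hσ : 0 < σ) (hσd : σ < d) (hlam : 0 < lam) :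
    ∃ t₁ > 0, ∀ i : ℕ, ∃ ε > 0, ∃ c > 0, ∀ t ≥ t₁, ∃ L₀ : ℕ, ∀ (L : ℕ) [NeZero L], L₀ ≤ L →
      ∀ J : (Fin d → ZMod L) → (Fin d → ZMod L) → ℝ, Rates d L σ lam J →
        c ≤ stirProb J t (fun g => IthLongest g i (ε * (L : ℝ) ^ d)) := by
  classical
  obtain ⟨t1, ht1, hmain⟩ := Pool.Agent.W805.LR.many_main d σ lam 1 hd hσ hσd hlam one_pos
  refine ⟨t1, ht1, fun i => ?_⟩
  obtain ⟨ε, hε, c, hc, hm2⟩ := hmain i
  refine ⟨ε, hε, c, hc, fun t ht => ?_⟩
  obtain ⟨L0, hL0⟩ := hm2 t ht
  refine ⟨L0, fun L _ hL J hJ => ?_⟩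
  have ht0 : 0 < t := lt_of_lt_of_le ht1 ht
  have h1 := hL0 L hL J hJ
  have hlaw : ∀ g, stirLaw J t g = Real.exp (-(t * totalRate J)) *
      Pool.Agent.W805.LR.stirMass J t g := fun g => Pool.Agent.W805.LR.series_eq J t g
  have hsum : ∑ g, Pool.Agent.W805.LR.stirMass J t g = Real.exp (t * totalRate J) :=
    Pool.Agent.W805.LR.sum_mass J t
  have hm : ∀ g, 0 ≤ Pool.Agent.W805.LR.stirMass J t g :=
    Pool.Agent.W29.LR.CV.stirMass_nonneg J
      (Pool.Agent.W805.LR.IsRate2.nonneg (σ := σ) hlam hJ) t ht0.le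
  have hlen : ∀ (g : Perm (Fin d → ZMod L)) (v : Fin d → ZMod L),
      Pool.Agent.W805.LR.len g v = (cycleLen g v : ℝ) := by
    intro g v
    unfold Pool.Agent.W805.LR.len cycleLen
    rw [Pool.Agent.W805.LR.cnt_eq, Nat.card_eq_fintype_card, Fintype.card_subtype, Finset.sum_boole]
  have himp : ∀ g : Perm (Fin d → ZMod L),
      Pool.Agent.W805.LR.manyCyc g (i + 1) (ε * (L : ℝ) ^ d) →
        IthLongest g i (ε * (L : ℝ) ^ d) := by
    rintro g ⟨f, hf1, hf2⟩
    refine ⟨fun a => f a.castSucc, fun a b hab => hf1 _ _ fun h => hab (Fin.castSucc_injective _ h),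
      fun a => ?_⟩
    have := hf2 a.castSucc
    rwa [hlen] at this
  simp only [one_pow, mul_one] at h1
  rw [hsum] at h1
  have h2 : Real.exp (-(t * totalRate J)) * (c * Real.exp (t * totalRate J)) ≤
      Real.exp (-(t * totalRate J)) * ∑ g, Pool.Agent.W805.LR.stirMass J t g *
        (if Pool.Agent.W805.LR.manyCyc g (i + 1) (ε * (L : ℝ) ^ d) then 1 else 0) := by
    refine mul_le_mul_of_nonneg_left ?_ (Real.exp_pos _).le
    refine h1.trans (le_of_eq ?_)
    refine Finset.sum_congr rfl fun g _ => ?_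
    congr
  have h3 : Real.exp (-(t * totalRate J)) * (c * Real.exp (t * totalRate J)) = c := by
    have : Real.exp (-(t * totalRate J)) * Real.exp (t * totalRate J) = 1 := by
      rw [← Real.exp_add]; simp
    calc _ = c * (Real.exp (-(t * totalRate J)) * Real.exp (t * totalRate J)) := by ring
      _ = c := by rw [this, mul_one]
  rw [h3] at h2
  refine h2.trans ?_
  unfold stirProb
  rw [Finset.mul_sum]
  refine Finset.sum_le_sum fun g _ => ?_
  rw [hlaw, ← mul_assoc]
  refine mul_le_mul_of_nonneg_left ?_ (mul_nonneg (Real.exp_pos _).le (hm g))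
  by_cases hg : Pool.Agent.W805.LR.manyCyc g (i + 1) (ε * (L : ℝ) ^ d)
  · rw [if_pos hg, if_pos (himp g hg)]
  · rw [if_neg hg]; split_ifs <;> norm_num

end Pool.Agent.Results.MP_6c3d62_pr.ManyLongCycles
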