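import Pool.Agent.W805.LR.Cons

set_option autoImplicit false

namespace Pool.Agent.Results.MP_6c3d62_pr.MassOfLongCycles

open Finset Equiv

/-- The sum over all unordered pairs of the rates. -/
noncomputable def totalRate {V : Type} [Fintype V] (J : V → V → ℝ) : ℝ := ∑ x, ∑ y, J x y / 2

/-- The probability that random stirring started at the identity, with an independent Poisson clock
of rate `J x y` for every unordered pair `{x, y}`, is at the permutation `g` at time `t`: there are
`n` rings up to time `t` with probability `exp (-R t) (R t)^n / n!`, `R` the total rate, and each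
ring is a ring of the ordered pair `(x, y)` with probability `J x y / (2 R)`. -/
noncomputable def stirLaw {V : Type} [Fintype V] [DecidableEq V] (J : V → V → ℝ) (t : ℝ)
    (g : Perm V) : ℝ :=
  ∑' n : ℕ, Real.exp (-(t * totalRate J)) * t ^ n / (n.factorial : ℝ) *
    ∑ w : Fin n → V × V, (∏ i, J (w i).1 (w i).2 / 2) *
      (if (List.ofFn fun i => swap (w i).1 (w i).2).prod = g then 1 else 0)

/-- Length of the cycle of `g` through `v`. -/
noncomputable def cycleLen {V : Type} [Fintype V] (g : Perm V) (v : V) : ℕ :=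
  Nat.card {w : V // g.SameCycle v w}

/-- The expectation of `F` under random stirring at time `t`. -/
noncomputable def stirExp {V : Type} [Fintype V] [DecidableEq V] (J : V → V → ℝ) (t : ℝ)
    (F : Perm V → ℝ) : ℝ := ∑ g, stirLaw J t g * F g

/-- Sup-distance in the box `{0, ..., L - 1}^d`. It is at least the distance on the torus. -/
def boxDist {d L : ℕ} (x y : Fin d → ZMod L) : ℕ :=
  univ.sup fun a => (((x a).val : ℤ) - (y a).val).natAbs

/-- Symmetric rates that are at least `lam * distance ^ (-(d + σ))`; otherwise arbitrary. Since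
`boxDist` is at least the distance on the torus, the condition with the latter is stronger. -/
def Rates (d L : ℕ) (σ lam : ℝ) (J : (Fin d → ZMod L) → (Fin d → ZMod L) → ℝ) : Prop :=
  (∀ x y, J x y = J y x) ∧ (∀ x, J x x = 0) ∧
    ∀ x y, x ≠ y → lam * (boxDist x y : ℝ) ^ (-((d : ℝ) + σ)) ≤ J x y

/-- Random stirring on the torus of side `L` in any dimension `d ≥ 1`, with any rates that dominate
an arbitrarily small multiple of `distance ^ (-(d + σ))`, `0 < σ < d` (for instance rate one on the
nearest neighbour edges plus such a weak tail). For large `t` the expected fraction of the points in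
cycles of macroscopic length is at least `1 - η`, uniformly in the size and in the rates; and when
the rates are translation invariant on the torus, the origin lies in a macroscopic cycle with
probability at least `1 - η`. -/
theorem result (d : ℕ) (σ lam η : ℝ) (hd : 1 ≤ d) (hσ : 0 < σ) (hσd : σ < d) (hlam : 0 < lam)
    (hη : 0 < η) :
    ∃ t₁ > 0, ∃ ε > 0, ∀ t ≥ t₁, ∃ L₀ : ℕ, ∀ (L : ℕ) [NeZero L], L₀ ≤ L →
      ∀ J : (Fin d → ZMod L) → (Fin d → ZMod L) → ℝ, Rates d L σ lam J →
        1 - η ≤ stirExp J t (fun g =>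
          (Nat.card {v : Fin d → ZMod L // ε * (L : ℝ) ^ d ≤ cycleLen g v} : ℝ) / (L : ℝ) ^ d) ∧
        ((∀ x y z, J (x + z) (y + z) = J x y) →
          1 - η ≤ stirExp J t (fun g => open Classical in
            if ε * (L : ℝ) ^ d ≤ cycleLen g 0 then 1 else 0)) := by
  classical
  obtain ⟨t1, ht1, ε, hε, hmain⟩ := Pool.Agent.W805.LR.main2_thm d σ lam 1 η hd hσ hσd hlam
    one_pos hη
  refine ⟨t1, ht1, ε, hε, fun t ht => ?_⟩
  obtain ⟨L0, hL0⟩ := hmain t ht
  refine ⟨L0, fun L _ hL J hJ => ?_⟩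
  have ht0 : 0 < t := lt_of_lt_of_le ht1 ht
  have h1 := hL0 L hL J hJ
  simp only [one_pow, mul_one] at h1
  have hLpos : (0 : ℝ) < L := by exact_mod_cast Nat.pos_of_ne_zero (NeZero.ne L)
  have hN : (0 : ℝ) < (L : ℝ) ^ d := by positivity
  have hlaw : ∀ g, stirLaw J t g = Real.exp (-(t * totalRate J)) *
      Pool.Agent.W805.LR.stirMass J t g := fun g => Pool.Agent.W805.LR.series_eq J t g
  have hsum : ∑ g, Pool.Agent.W805.LR.stirMass J t g = Real.exp (t * totalRate J) :=
    Pool.Agent.W805.LR.sum_mass J t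
  have hm : ∀ g, 0 ≤ Pool.Agent.W805.LR.stirMass J t g :=
    Pool.Agent.W29.LR.CV.stirMass_nonneg J
      (Pool.Agent.W805.LR.IsRate2.nonneg (σ := σ) hlam hJ) t ht0.le
  obtain ⟨Z, hZ⟩ : ∃ Z, Z = ∑ g, Pool.Agent.W805.LR.stirMass J t g := ⟨_, rfl⟩
  have hZe : Z = Real.exp (t * totalRate J) := hZ.trans hsum
  have hZ0 : 0 < Z := by rw [hZe]; exact Real.exp_pos _
  have hw : ∀ F : Perm (Fin d → ZMod L) → ℝ, stirExp J t F =
      (∑ g, Pool.Agent.W805.LR.stirMass J t g * F g) / Z := by
    intro F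
    unfold stirExp
    rw [hZe, div_eq_inv_mul, ← Real.exp_neg, Finset.mul_sum]
    refine Finset.sum_congr rfl fun g _ => ?_
    rw [hlaw, mul_assoc]
  have hlen : ∀ (g : Perm (Fin d → ZMod L)) (v : Fin d → ZMod L),
      Pool.Agent.W805.LR.len g v = (cycleLen g v : ℝ) := by
    intro g v
    unfold Pool.Agent.W805.LR.len cycleLen
    rw [Pool.Agent.W805.LR.cnt_eq, Nat.card_eq_fintype_card, Fintype.card_subtype, Finset.sum_boole]
  have hcnt : ∀ g : Perm (Fin d → ZMod L),
      (Nat.card {v : Fin d → ZMod L // ε * (L : ℝ) ^ d ≤ cycleLen g v} : ℝ) =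
      (L : ℝ) ^ d - Pool.Agent.W805.LR.cnt fun v => Pool.Agent.W805.LR.len g v < ε * (L : ℝ) ^ d := by
    intro g
    rw [Nat.card_eq_fintype_card, Fintype.card_subtype, Pool.Agent.W805.LR.cnt_eq,
      Finset.sum_boole, ← Pool.Agent.W805.LR.card_torus d L, eq_sub_iff_add_eq, ← Nat.cast_add]
    congr 1
    have h2 : (univ.filter fun v => Pool.Agent.W805.LR.len g v < ε * (L : ℝ) ^ d) =
        (univ.filter fun v => ¬ (ε * (L : ℝ) ^ d ≤ cycleLen g v)) := by
      refine Finset.filter_congr fun v _ => ?_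
      rw [hlen, not_le]
    rw [← Pool.Agent.W805.LR.card_torus d L] at h2
    rw [h2, Finset.card_filter_add_card_filter_not]
    exact Finset.card_univ
  rw [← hZ] at h1
  constructor
  · rw [hw, le_div_iff₀ hZ0]
    have e3 : ∑ g, Pool.Agent.W805.LR.stirMass J t g *
        ((Nat.card {v : Fin d → ZMod L // ε * (L : ℝ) ^ d ≤ cycleLen g v} : ℝ) / (L : ℝ) ^ d) =
        Z - (∑ g, Pool.Agent.W805.LR.stirMass J t g *
          (Pool.Agent.W805.LR.cnt fun v => Pool.Agent.W805.LR.len g v < ε * (L : ℝ) ^ d)) /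
            (L : ℝ) ^ d := by
      rw [hZ, Finset.sum_div, ← Finset.sum_sub_distrib]
      refine Finset.sum_congr rfl fun g _ => ?_
      rw [hcnt]; field_simp
    rw [e3]
    have h4 : (∑ g, Pool.Agent.W805.LR.stirMass J t g *
          (Pool.Agent.W805.LR.cnt fun v => Pool.Agent.W805.LR.len g v < ε * (L : ℝ) ^ d)) /
            (L : ℝ) ^ d ≤ η * Z := by
      rw [div_le_iff₀ hN]
      refine h1.trans (le_of_eq ?_)
      ring
    linarith
  · intro htr
    rw [hw, le_div_iff₀ hZ0]
    have h5 := Pool.Agent.W174.LR.TI.main d L J t 1 (ε * (L : ℝ) ^ d) htr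
    simp only [one_pow, mul_one] at h5
    rw [h5] at h1
    have h6 : (L : ℝ) ^ d * ∑ g, Pool.Agent.W805.LR.stirMass J t g *
        (if Pool.Agent.W805.LR.len g (0 : Fin d → ZMod L) < ε * (L : ℝ) ^ d then 1 else 0) ≤
        (L : ℝ) ^ d * (η * Z) := h1.trans (le_of_eq (by ring))
    have h7 := le_of_mul_le_mul_left h6 hN
    have e3 : ∑ g, Pool.Agent.W805.LR.stirMass J t g *
        (if ε * (L : ℝ) ^ d ≤ cycleLen g 0 then (1 : ℝ) else 0) =
        Z - ∑ g, Pool.Agent.W805.LR.stirMass J t g *
        (if Pool.Agent.W805.LR.len g (0 : Fin d → ZMod L) < ε * (L : ℝ) ^ d then 1 else 0) := by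
      rw [hZ, ← Finset.sum_sub_distrib]
      refine Finset.sum_congr rfl fun g _ => ?_
      rw [hlen]
      by_cases hc : ε * (L : ℝ) ^ d ≤ cycleLen g 0
      · rw [if_pos hc, if_neg (not_lt.2 hc)]; ring
      · rw [if_neg hc, if_pos (not_le.1 hc)]; ring
    rw [e3]
    linarith

end Pool.Agent.Results.MP_6c3d62_pr.MassOfLongCycles
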