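import Pool.Agent.TH604.ST.Asm15
import Pool.Agent.TH604.ST.Tops
import Pool.Agent.TH604.ST.Chi

set_option autoImplicit false

namespace Pool.Agent.Results.MP_6c3d62_pr.MeanFieldLongCycles

open Finset Equiv Filter Topology

/-- The sum over all unordered pairs of the rates. -/
noncomputable def totalRate {V : Type} [Fintype V] (J : V → V → ℝ) : ℝ := ∑ x, ∑ y, J x y / 2

/-- The probability that random stirring started at the identity, with an independent Poisson clock
of rate `J x y` for every unordered pair `{x, y}`, is at the permutation `g` at time `t`: there are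
`n` rings up to time `t` with probability `exp (-R t) (R t)^n / n!`, `R` the total rate, and each
ring is a ring of the ordered pair `(x, y)` with probability `J x y / (2 R)`. -/
noncomputable def stirLaw {V : Type} [Fintype V] [DecidableEq V] (J : V → V → ℝ) (t : ℝ)
    (g : Perm V) : ℝ :=
  ∑' n : ℕ, Real.exp (-(t * totalRate J)) * t ^ n / (n.factorial : ℝ) *
    ∑ w : Fin n → V × V, (∏ i, J (w i).1 (w i).2 / 2) *
      (if (List.ofFn fun i => swap (w i).1 (w i).2).prod = g then 1 else 0)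

/-- The expectation of `F` under random stirring at time `t`. -/
noncomputable def stirExp {V : Type} [Fintype V] [DecidableEq V] (J : V → V → ℝ) (t : ℝ)
    (F : Perm V → ℝ) : ℝ := ∑ g, stirLaw J t g * F g

/-- Length of the cycle of `g` through `v`. -/
noncomputable def cycleLen {V : Type} [Fintype V] (g : Perm V) (v : V) : ℕ :=
  Nat.card {w : V // g.SameCycle v w}

/-- The fraction of the points that lie in cycles with at least `K` points. -/
noncomputable def longMass {V : Type} [Fintype V] (K : ℝ) (g : Perm V) : ℝ :=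
  (Nat.card {v : V // K ≤ (cycleLen g v : ℝ)} : ℝ) / Fintype.card V

/-- The `i`-th largest cycle length (`i = 0` for the largest) divided by the number of points, and
`0` if there are at most `i` cycles. -/
noncomputable def cycleFrac {V : Type} [Fintype V] [DecidableEq V] (g : Perm V) (i : ℕ) : ℝ :=
  sSup {x : ℝ | i + 1 ≤ Multiset.card
    (Multiset.filter (fun c : ℕ => x ≤ (c : ℝ) / Fintype.card V) g.partition.parts)}

/-- Rate one on the nearest neighbour edges of the torus `(ℤ / L)^d` (for `L ≥ 3`; for `L ≤ 2` with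
multiplicities). -/
def nearest (d L : ℕ) (x y : Fin d → ZMod L) : ℝ :=
  ∑ i, ((if y = x + Pi.single i 1 then 1 else 0) + (if x = y + Pi.single i 1 then 1 else 0))

/-- The rates `J` with `lam / N` added for all pairs of different points, `N` the number of
points. -/
noncomputable def addUniform {V : Type} [Fintype V] [DecidableEq V] (J : V → V → ℝ) (lam : ℝ) :
    V → V → ℝ := fun x y => if x = y then 0 else J x y + lam / Fintype.card V

section bridge

variable {V : Type} [Fintype V] [DecidableEq V]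

theorem len_eq (g : Perm V) (v : V) : Pool.Agent.W805.LR.len g v = (cycleLen g v : ℝ) := by
  classical
  unfold Pool.Agent.W805.LR.len cycleLen
  rw [Pool.Agent.W805.LR.cnt_eq, Nat.card_eq_fintype_card, Fintype.card_subtype, Finset.sum_boole]

theorem stir_eq (J : V → V → ℝ) (t : ℝ) (F : Perm V → ℝ) :
    stirExp J t F = Pool.Agent.TH604.ST.stE J t F := by
  have hlaw : ∀ g, stirLaw J t g = Real.exp (-(t * totalRate J)) *
      Pool.Agent.W805.LR.stirMass J t g := fun g => Pool.Agent.W805.LR.series_eq J t g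
  unfold stirExp Pool.Agent.TH604.ST.stE
  rw [Finset.mul_sum]
  refine Finset.sum_congr rfl fun g _ => ?_
  rw [hlaw, mul_assoc]
  rfl

theorem mass_eq (K : ℝ) (g : Perm V) : longMass K g = Pool.Agent.TH604.ST.frac K g := by
  classical
  unfold longMass Pool.Agent.TH604.ST.frac Pool.Agent.TH604.ST.nn
  simp only [len_eq]
  rw [Pool.Agent.TH268.PD.Bad.cnt_eq, Nat.card_eq_fintype_card, Fintype.card_subtype]

theorem frac_eq (g : Perm V) (i : ℕ) :
    cycleFrac g i = Pool.Agent.TH268.PD.top (Pool.Agent.TH268.PD.frac g) i := by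
  unfold cycleFrac Pool.Agent.TH268.PD.top
  congr 1
  ext x
  rw [Set.mem_ofPred_eq, Set.mem_ofPred_eq, Pool.Agent.TH268.PD.card_cyc g x]

theorem add_eq (d L : ℕ) (lam : ℝ) : addUniform (nearest d (L + 1)) lam =
    Pool.Agent.TH604.ST.pert (Pool.Agent.TH604.ST.nrs d (L + 1)) lam := rfl

end bridge

/-- The long cycle conjecture (Q2) for nearest neighbour stirring on the torus of side `L + 1` with
a mean-field perturbation, rate `lam / N` for every pair of the `N = (L + 1)^d` points, in any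
dimension `d ≥ 1`: the phase diagram in the time `t > 0` and the strength `lam > 0`.

There are a threshold `lamc t` in `[0, 1 / t]`, at least `1 / t - 2 d`, and a function `m t lam`,
jointly continuous in `t > 0` and `lam > 0`, such that for every `t > 0`: (0) the threshold is
`lamc t = 1 / (t χ)`, where `χ` is the mean cycle length at time `t` for nearest neighbour stirring
without perturbation, `χ = sup_K limsup_L` of the expected average over the points `v` of
`min |C_v| K`, and `lamc t = 0` if `χ` is infinite; (a) for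
`0 < lam ≤ lamc t` there are no macroscopic cycles: the ordered cycle lengths divided by `N` tend
to `0` in probability; (b) for `lam > lamc t` every ordered cycle length is macroscopic with
probability bounded away from `0`; (c) for `lam > 0` the limits
`m t lam = lim_k lim_L ∑_{i < k} E p_i` exist, `m` takes values in `[0, 1]`, is non-decreasing in
`lam`, vanishes for `lam ≤ lamc t`, is positive for `lam > lamc t`, and is at least
`1 - 1 / (lam t)`, so that it tends to `1` as `lam → ∞` and also as `t → ∞`.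

In particular, for a fixed strength `lam > 0`, as a function of the time `t` the mass is continuous,
vanishes for `t ≤ 1 / (lam + 2 d)`, is positive for `t > 1 / lam` and tends to `1` as `t → ∞`.

Moreover (d) the fraction of the points in cycles with at least `K` points converges to `m t lam` in
mean square, uniformly in `K` from a large constant to a small multiple of `N`, and (e) `m t lam` is
the largest solution of `q = H t (lam t q)`, where `H t y` is the limit of the expected average over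
the points `v` of `1 - exp (-(y |C_v|))`, `C_v` the cycle of `v` at time `t` for nearest neighbour
stirring without perturbation; this limit exists. (f) As `lam → 0` the mass `m t lam` converges to
the limit `m₀ t` (first `L → ∞`, then `K → ∞`) of the mean fraction of the points in cycles with at
least `K` points for nearest neighbour stirring without perturbation: so `m₀ t > 0`, cycles of
unbounded length without perturbation, if and only if a perturbation of vanishing strength leads to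
macroscopic cycles of a mass that does not vanish. -/
theorem result (d : ℕ) (hd : 1 ≤ d) :
    ∃ (lamc m₀ : ℝ → ℝ) (m H : ℝ → ℝ → ℝ),
      ContinuousOn (fun p : ℝ × ℝ => m p.1 p.2) (Set.Ioi 0 ×ˢ Set.Ioi 0) ∧
      ∀ t : ℝ, 0 < t →
      0 ≤ lamc t ∧ 1 / t - 2 * d ≤ lamc t ∧ lamc t ≤ 1 / t ∧
      (∀ lam : ℝ, 0 < lam → (lam ≤ lamc t ↔ ∀ (K : ℕ) (η : ℝ), 0 < η → ∀ᶠ L : ℕ in atTop,
        lam * t * stirExp (nearest d (L + 1)) t (fun g =>
          (∑ v, min (cycleLen g v : ℝ) K) / ((L : ℝ) + 1) ^ d) ≤ 1 + η)) ∧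
      (∀ lam : ℝ, 0 < lam → lam ≤ lamc t → ∀ (i : ℕ) (ε : ℝ), 0 < ε →
        Tendsto (fun L : ℕ => stirExp (addUniform (nearest d (L + 1)) lam) t (fun g =>
          open Classical in if ε ≤ cycleFrac g i then 1 else 0)) atTop (𝓝 0)) ∧
      (∀ lam : ℝ, lamc t < lam → ∀ i : ℕ, ∃ ε₀ : ℝ, 0 < ε₀ ∧ ∀ ε : ℝ, 0 < ε → ε < ε₀ →
        0 < liminf (fun L : ℕ => stirExp (addUniform (nearest d (L + 1)) lam) t (fun g =>
          open Classical in if ε ≤ cycleFrac g i then 1 else 0)) atTop) ∧
      (∀ lam : ℝ, 0 < lam → ∃ S : ℕ → ℝ,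
        (∀ k : ℕ, Tendsto (fun L : ℕ => ∑ i ∈ range k,
          stirExp (addUniform (nearest d (L + 1)) lam) t (fun g => cycleFrac g i))
            atTop (𝓝 (S k))) ∧ Tendsto S atTop (𝓝 (m t lam))) ∧
      (∀ lam : ℝ, 0 < lam → 0 ≤ m t lam ∧ 1 - 1 / (lam * t) ≤ m t lam ∧ m t lam ≤ 1) ∧
      MonotoneOn (m t) (Set.Ioi 0) ∧
      (∀ lam : ℝ, 0 < lam → lam ≤ lamc t → m t lam = 0) ∧
      (∀ lam : ℝ, lamc t < lam → 0 < m t lam) ∧
      (∀ lam η : ℝ, 0 < lam → 0 < η → ∃ K₀ > (0 : ℝ), ∃ δ₀ > (0 : ℝ), ∀ᶠ L : ℕ in atTop,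
        ∀ K : ℝ, K₀ ≤ K → K ≤ δ₀ * ((L : ℝ) + 1) ^ d →
          stirExp (addUniform (nearest d (L + 1)) lam) t
            (fun g => (longMass K g - m t lam) ^ 2) ≤ η) ∧
      (∀ y : ℝ, 0 < y → Tendsto (fun L : ℕ => stirExp (nearest d (L + 1)) t (fun g =>
        (∑ v, (1 - Real.exp (-(y * cycleLen g v)))) / ((L : ℝ) + 1) ^ d)) atTop (𝓝 (H t y))) ∧
      (∀ lam : ℝ, 0 < lam → (0 < m t lam → m t lam = H t (lam * t * m t lam)) ∧
        ∀ q : ℝ, 0 < q → q = H t (lam * t * q) → q ≤ m t lam) ∧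
      Tendsto (m t) (𝓝[>] 0) (𝓝 (m₀ t)) ∧
      ∀ η : ℝ, 0 < η → ∃ K₁ : ℝ, ∀ K : ℝ, K₁ ≤ K → ∀ᶠ L : ℕ in atTop,
        |stirExp (nearest d (L + 1)) t (longMass K) - m₀ t| ≤ η := by
  classical
  have hcard : ∀ L : ℕ, Pool.Agent.TH604.ST.nn (Fin d → ZMod (L + 1)) = ((L : ℝ) + 1) ^ d := by
    intro L
    unfold Pool.Agent.TH604.ST.nn
    rw [Fintype.card_fun, ZMod.card, Fintype.card_fin]
    push_cast
    rfl
  have hlc : ∀ t : ℝ, ∃ lc : ℝ, 0 < t → 0 ≤ lc ∧ lc ≤ 1 / t ∧
      (∀ lam, 0 < lam → lam ≤ lc → Pool.Agent.TH604.ST.mlim d t lam = 0) ∧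
      ∀ lam, lc < lam → 0 < Pool.Agent.TH604.ST.mlim d t lam := by
    intro t
    by_cases ht : 0 < t
    · obtain ⟨lc, h⟩ := Pool.Agent.TH604.ST.thr Pool.Agent.TH604.ST.Cmp.cmp
        Pool.Agent.TH604.ST.Cpy.cpy Pool.Agent.TH604.ST.Rlb.rlb Pool.Agent.TH604.ST.Geo.geo d ht
      exact ⟨lc, fun _ => h⟩
    · exact ⟨0, fun h => absurd h ht⟩
  have hz : ∀ t : ℝ, ∃ m₀ : ℝ, 0 < t → 0 ≤ m₀ ∧ m₀ ≤ 1 ∧
      Tendsto (Pool.Agent.TH604.ST.mlim d t) (𝓝[>] 0) (𝓝 m₀) ∧
      ∀ η : ℝ, 0 < η → ∃ K₁ : ℝ, ∀ K : ℝ, K₁ ≤ K → ∀ᶠ L : ℕ in atTop,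
        |Pool.Agent.TH604.ST.stE (Pool.Agent.TH604.ST.nrs d (L + 1)) t
          (Pool.Agent.TH604.ST.frac K) - m₀| ≤ η := by
    intro t
    by_cases ht : 0 < t
    · obtain ⟨m₀, h⟩ := Pool.Agent.TH604.ST.zero_lim d ht
      exact ⟨m₀, fun _ => h⟩
    · exact ⟨0, fun h => absurd h ht⟩
  choose lamc hlamc using hlc
  choose m₀ hm₀ using hz
  refine ⟨lamc, m₀, Pool.Agent.TH604.ST.mlim d, Pool.Agent.TH604.ST.Hlim d,
    Pool.Agent.TH604.ST.mlim_joint d, fun t ht => ?_⟩
  obtain ⟨h1, h2, h3, h4⟩ := hlamc t ht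
  obtain ⟨g1, g2, g3, g4⟩ := hm₀ t ht
  have hlow : 1 / t - 2 * d ≤ lamc t := by
    by_contra hc
    push Not at hc
    have g1 := h4 (1 / t - 2 * d) hc
    have g2 := Pool.Agent.TH604.ST.thr_low d ht Pool.Agent.TH604.ST.Chi.chi
      (lt_of_le_of_lt h1 hc) le_rfl
    linarith
  refine ⟨h1, hlow, h2, ?_, ?_, ?_, ?_, ?_, ?_, h3, h4, ?_, ?_, ?_, g3, ?_⟩
  · intro lam hl
    rw [Pool.Agent.TH604.ST.thr_mean d ht h3 h4 hl]
    have e : ∀ (K L : ℕ), stirExp (nearest d (L + 1)) t (fun g =>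
        (∑ v, min (cycleLen g v : ℝ) K) / ((L : ℝ) + 1) ^ d) =
        Pool.Agent.TH604.ST.Tm (Pool.Agent.TH604.ST.nrs d (L + 1)) t K := by
      intro K L
      rw [stir_eq]
      unfold Pool.Agent.TH604.ST.Tm
      rw [hcard L]
      simp only [len_eq]
      rfl
    simp only [e]
  · intro lam hl hlc i ε hε
    simp only [stir_eq, frac_eq, add_eq]
    exact Pool.Agent.TH604.ST.tor_sub d hd ht hl (h3 lam hl hlc) i hε
  · intro lam hlc i
    simp only [stir_eq, frac_eq, add_eq]
    exact Pool.Agent.TH604.ST.tor_sup d hd ht (lt_of_le_of_lt h1 hlc) (h4 lam hlc) i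
  · intro lam hl
    simp only [stir_eq, frac_eq, add_eq]
    exact Pool.Agent.TH604.ST.tor_sum d hd ht Pool.Agent.TH604.ST.Tops.tops hl
  · intro lam hl
    obtain ⟨b1, b2⟩ := Pool.Agent.TH604.ST.mlim_bd Pool.Agent.TH604.ST.Cmp.cmp
      Pool.Agent.TH604.ST.Cpy.cpy Pool.Agent.TH604.ST.Rlb.rlb Pool.Agent.TH604.ST.Geo.geo d ht hl
    exact ⟨b1, Pool.Agent.TH604.ST.mlim_low Pool.Agent.TH604.ST.Cmp.cmp
      Pool.Agent.TH604.ST.Cpy.cpy Pool.Agent.TH604.ST.Rlb.rlb Pool.Agent.TH604.ST.Geo.geo d ht hl,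
      b2⟩
  · intro a ha b _ hab
    exact Pool.Agent.TH604.ST.mlim_mono Pool.Agent.TH604.ST.Cmp.cmp
      Pool.Agent.TH604.ST.Cpy.cpy Pool.Agent.TH604.ST.Rlb.rlb Pool.Agent.TH604.ST.Geo.geo d ht
      ha hab
  · intro lam η hl hη
    obtain ⟨K₀, hK₀, δ₀, hδ₀, H⟩ := Pool.Agent.TH604.ST.tor_mass d hd ht hl hη
    refine ⟨K₀, hK₀, δ₀, hδ₀, ?_⟩
    filter_upwards [H] with L hL K hK1 hK2
    rw [← hcard L] at hK2
    simp only [stir_eq, mass_eq, add_eq]
    exact hL K hK1 hK2
  · intro y hy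
    have h5 := Pool.Agent.TH604.ST.Hlim_tendsto d ht hy
    refine h5.congr fun L => ?_
    rw [stir_eq]
    unfold Pool.Agent.TH604.ST.Hf
    have e : (fun g : Perm (Fin d → ZMod (L + 1)) =>
        (∑ v, (1 - Real.exp (-(y * (cycleLen g v : ℝ))))) / ((L : ℝ) + 1) ^ d) =
        fun g => (∑ v, (1 - Real.exp (-(y * Pool.Agent.W805.LR.len g v)))) /
          Pool.Agent.TH604.ST.nn (Fin d → ZMod (L + 1)) := by
      funext g
      rw [hcard L]
      simp only [len_eq]
    rw [e]
    rfl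
  · intro lam hl
    refine ⟨fun hm => (Pool.Agent.TH604.ST.mlim_eq d ht hl hm).symm, fun q hq0 hq => ?_⟩
    exact Pool.Agent.TH604.ST.mlim_max d ht hl hq0 (le_of_eq hq)
  · intro η hη
    obtain ⟨K₁, hK₁⟩ := g4 η hη
    refine ⟨K₁, fun K hK => ?_⟩
    filter_upwards [hK₁ K hK] with L hL
    have e : (longMass K : Perm (Fin d → ZMod (L + 1)) → ℝ) = Pool.Agent.TH604.ST.frac K :=
      funext (mass_eq K)
    rw [stir_eq, e]
    exact hL

end Pool.Agent.Results.MP_6c3d62_pr.MeanFieldLongCycles
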