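import Pool.Agent.TH604.ST.Asm7

set_option autoImplicit false

namespace Pool.Agent.Results.MP_6c3d62_pr.MeanFieldMassLaw

open Finset Equiv

/-- The sum over all unordered pairs of the rates. -/
noncomputable def totalRate {V : Type} [Fintype V] (J : V → V → ℝ) : ℝ := ∑ x, ∑ y, J x y / 2

/-- The probability that random stirring started at the identity, with an independent Poisson clock
of rate `J x y` for every unordered pair `{x, y}`, is at the permutation `g` at time `t`: there are
`n` rings up to time `t` with probability `exp (-R t) (R t)^n / n!`, `R` the total rate, and each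
ring is a ring of the ordered pair `(x, y)` with probability `J x y / (2 R)`. -/
noncomputable def stirLaw {V : Type} [Fintype V] [DecidableEq V] (J : V → V → ℝ) (t : ℝ)
    (g : Perm V) : ℝ :=
  ∑' n : ℕ, Real.exp (-(t * totalRate J)) * t ^ n / (n.factorial : ℝ) *
    ∑ w : Fin n → V × V, (∏ i, J (w i).1 (w i).2 / 2) *
      (if (List.ofFn fun i => swap (w i).1 (w i).2).prod = g then 1 else 0)

/-- The expectation of `F` under random stirring at time `t`. -/
noncomputable def stirExp {V : Type} [Fintype V] [DecidableEq V] (J : V → V → ℝ) (t : ℝ)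
    (F : Perm V → ℝ) : ℝ := ∑ g, stirLaw J t g * F g

/-- Length of the cycle of `g` through `v`. -/
noncomputable def cycleLen {V : Type} [Fintype V] (g : Perm V) (v : V) : ℕ :=
  Nat.card {w : V // g.SameCycle v w}

/-- The fraction of the points that lie in cycles with at least `K` points. -/
noncomputable def longMass {V : Type} [Fintype V] (K : ℝ) (g : Perm V) : ℝ :=
  (Nat.card {v : V // K ≤ (cycleLen g v : ℝ)} : ℝ) / Fintype.card V

/-- The average over the points of the length of the cycle of the point. -/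
noncomputable def meanLen {V : Type} [Fintype V] (g : Perm V) : ℝ :=
  (∑ v, (cycleLen g v : ℝ)) / Fintype.card V

/-- The rates `J` with `lam / N` added for all pairs of different points, `N` the number of
points. -/
noncomputable def addUniform {V : Type} [Fintype V] [DecidableEq V] (J : V → V → ℝ) (lam : ℝ) :
    V → V → ℝ := fun x y => if x = y then 0 else J x y + lam / Fintype.card V

/-- The solutions `q` of `q = 1 - E [average over the points v of exp (-(lam t q |C_v|))]`, where
`C_v` is the cycle of `v` at time `t` for stirring with the rates `J` (without the uniform rates).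
-/
def massEq {V : Type} [Fintype V] [DecidableEq V] (J : V → V → ℝ) (t lam : ℝ) : Set ℝ :=
  {q : ℝ | q = 1 - stirExp J t (fun g =>
    (∑ v, Real.exp (-(lam * t * q * cycleLen g v))) / Fintype.card V)}

/-- Rate one on the nearest neighbour edges of the torus `(ℤ / L)^d` (for `L ≥ 3`; for `L ≤ 2` with
multiplicities). -/
def nearest (d L : ℕ) (x y : Fin d → ZMod L) : ℝ :=
  ∑ i, ((if y = x + Pi.single i 1 then 1 else 0) + (if x = y + Pi.single i 1 then 1 else 0))

section bridge

variable {V : Type} [Fintype V] [DecidableEq V]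

theorem len_eq (g : Perm V) (v : V) : Pool.Agent.W805.LR.len g v = (cycleLen g v : ℝ) := by
  classical
  unfold Pool.Agent.W805.LR.len cycleLen
  rw [Pool.Agent.W805.LR.cnt_eq, Nat.card_eq_fintype_card, Fintype.card_subtype, Finset.sum_boole]

theorem stir_eq (J : V → V → ℝ) (t : ℝ) (F : Perm V → ℝ) :
    stirExp J t F = Pool.Agent.TH604.ST.stE J t F := by
  have hlaw : ∀ g, stirLaw J t g = Real.exp (-(t * totalRate J)) *
      Pool.Agent.W805.LR.stirMass J t g := fun g => Pool.Agent.W805.LR.series_eq J t g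
  unfold stirExp Pool.Agent.TH604.ST.stE
  rw [Finset.mul_sum]
  refine Finset.sum_congr rfl fun g _ => ?_
  rw [hlaw, mul_assoc]
  rfl

theorem mass_eq (K : ℝ) (g : Perm V) : longMass K g = Pool.Agent.TH604.ST.frac K g := by
  classical
  unfold longMass Pool.Agent.TH604.ST.frac Pool.Agent.TH604.ST.nn
  simp only [len_eq]
  rw [Pool.Agent.TH268.PD.Bad.cnt_eq, Nat.card_eq_fintype_card, Fintype.card_subtype]

theorem add_eq (J : V → V → ℝ) (lam : ℝ) : addUniform J lam = Pool.Agent.TH604.ST.pert J lam := rfl

theorem eq_eq (J : V → V → ℝ) (t lam : ℝ) :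
    massEq J t lam = Pool.Agent.TH604.ST.Rts J t (lam * t) := by
  unfold massEq Pool.Agent.TH604.ST.Rts Pool.Agent.TH604.ST.nn
  simp only [stir_eq, len_eq]

end bridge

theorem near_total (d L : ℕ) [NeZero L] :
    totalRate (nearest d L) = d * (Fintype.card (Fin d → ZMod L) : ℝ) := by
  unfold totalRate nearest
  have h1 : ∀ (i : Fin d) (x : Fin d → ZMod L), ∑ y : Fin d → ZMod L,
      (if y = x + Pi.single i 1 then (1 : ℝ) else 0) = 1 := fun i x => by
    rw [Finset.sum_ite_eq' univ (x + Pi.single i 1) (fun _ => (1 : ℝ)), if_pos (mem_univ _)]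
  have hA : ∑ x : Fin d → ZMod L, ∑ y : Fin d → ZMod L, ∑ i : Fin d,
      (if y = x + Pi.single i 1 then (1 : ℝ) else 0) =
      d * (Fintype.card (Fin d → ZMod L) : ℝ) := by
    have h4 : ∀ x : Fin d → ZMod L, ∑ y : Fin d → ZMod L, ∑ i : Fin d,
        (if y = x + Pi.single i 1 then (1 : ℝ) else 0) = d := by
      intro x
      rw [Finset.sum_comm]
      simp only [h1, Finset.sum_const, Finset.card_univ, Fintype.card_fin, nsmul_eq_mul, mul_one]
    simp only [h4, Finset.sum_const, Finset.card_univ, nsmul_eq_mul]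
    ring
  have hB : ∑ x : Fin d → ZMod L, ∑ y : Fin d → ZMod L, ∑ i : Fin d,
      (if x = y + Pi.single i 1 then (1 : ℝ) else 0) =
      d * (Fintype.card (Fin d → ZMod L) : ℝ) := by
    rw [Finset.sum_comm]
    exact hA
  simp only [← Finset.sum_div]
  have h3 : ∑ x : Fin d → ZMod L, ∑ y : Fin d → ZMod L, ∑ i : Fin d,
      ((if y = x + Pi.single i 1 then (1 : ℝ) else 0) +
        (if x = y + Pi.single i 1 then (1 : ℝ) else 0)) =
      2 * (d * (Fintype.card (Fin d → ZMod L) : ℝ)) := by
    simp only [Finset.sum_add_distrib]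
    rw [hA, hB]
    ring
  rw [h3]
  ring

/-- Random stirring (the interchange process) started at the identity on a finite set with `N`
points, with arbitrary symmetric rates `J` of total rate at most `D N` (for instance the nearest
neighbour rates of the torus in any dimension `d`, `D = d`), to which the rates `lam / N` are added
for all pairs, `lam > 0` fixed (mean-field perturbation). Let `m lam` be the largest solution of
`q = 1 - E_J [average of exp (-(lam t q |C_v|))]`, which depends only on the unperturbed process at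
time `t`. It is positive if and only if `lam t E_J [mean cycle length of a point] > 1`; it differs
from the mean fraction of points in unperturbed cycles of length `K` or more by at most
`1 / (lam t K)` (below) and `lam t K` (above), for every `K`; it is non-decreasing and Hölder
continuous in `lam`, uniformly in `N` and `J`. For every `lam` in `[κ, Λ]` the fraction of the
points in cycles of length at least `K` of the perturbed process at time `t` is `m lam` up to a
small error in mean square, for all `K` between a constant `K₀` and `δ₀ N`: so `m lam` is the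
fraction of the points in macroscopic cycles, and all long cycles are macroscopic. -/
theorem result (t D κ Λ η : ℝ) (ht : 0 < t) (hκ : 0 < κ) (hκΛ : κ ≤ Λ) (hη : 0 < η) :
    (∃ C : ℝ, ∃ K₀ > (0 : ℝ), ∃ δ₀ > (0 : ℝ), ∃ N₀ : ℝ,
      ∀ (V : Type) [Fintype V] [DecidableEq V] [Nonempty V] (J : V → V → ℝ),
        (∀ x y, J x y = J y x) → (∀ x y, 0 ≤ J x y) →
        ∃ m : ℝ → ℝ,
          (∀ lam, 0 < lam → IsGreatest (massEq J t lam) (m lam) ∧ 0 ≤ m lam ∧ m lam ≤ 1 ∧
            (0 < m lam ↔ 1 < lam * t * stirExp J t meanLen) ∧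
            ∀ K, 0 < K → stirExp J t (longMass K) - 1 / (lam * t * K) ≤ m lam ∧
              m lam ≤ stirExp J t (longMass K) + lam * t * K) ∧
          (∀ a b, κ ≤ a → a ≤ b → b ≤ Λ → m a ≤ m b ∧ m b ≤ m a + C * Real.sqrt (b - a)) ∧
          (N₀ ≤ Fintype.card V → totalRate J ≤ D * Fintype.card V →
            ∀ lam, κ ≤ lam → lam ≤ Λ → ∀ K, K₀ ≤ K → K ≤ δ₀ * Fintype.card V →
              stirExp (addUniform J lam) t (fun g => (longMass K g - m lam) ^ 2) ≤ η)) ∧
    ∀ (d L : ℕ) [NeZero L], (∀ x y, nearest d L x y = nearest d L y x) ∧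
      (∀ x y, 0 ≤ nearest d L x y) ∧
      totalRate (nearest d L) = d * (Fintype.card (Fin d → ZMod L) : ℝ) := by
  constructor
  swap
  · intro d L _
    refine ⟨fun x y => ?_, fun x y => ?_, near_total d L⟩
    · unfold nearest
      exact Finset.sum_congr rfl fun i _ => add_comm _ _
    · unfold nearest
      exact Finset.sum_nonneg fun i _ => by split_ifs <;> norm_num
  obtain ⟨K₀, hK₀, δ₀, hδ₀, N₀, H⟩ := Pool.Agent.TH604.ST.macro_law 0 (fun _ => 0)
    continuous_const 1 (fun _ => by simp) (D := D) ht hκ hκΛ hη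
  -- the constant of the modulus
  obtain ⟨c, hc⟩ : ∃ c, c = Real.exp (-(Λ * t)) * (κ * t) ^ 3 := ⟨_, rfl⟩
  have hc0 : 0 < c := by rw [hc]; positivity
  refine ⟨Real.sqrt (5 * t / c), K₀, hK₀, δ₀, hδ₀, N₀, ?_⟩
  intro V _ _ _ J _ hJ
  have hroots : ∀ lam : ℝ, ∃ m : ℝ, 0 ≤ lam → IsGreatest (massEq J t lam) m := by
    intro lam
    by_cases hl : 0 ≤ lam
    · obtain ⟨m, hm⟩ := Pool.Agent.TH604.ST.root_ex Pool.Agent.TH604.ST.Root.rt2
        Pool.Agent.TH604.ST.p_jn Pool.Agent.TH604.ST.p_vj Pool.Agent.TH604.ST.p_bdg J hJ ht.le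
        (mul_nonneg hl ht.le)
      exact ⟨m, fun _ => by rw [eq_eq]; exact hm⟩
    · exact ⟨0, fun h => absurd h hl⟩
  choose m hm using hroots
  refine ⟨m, ?_, ?_, ?_⟩
  · intro lam hl
    have hg := hm lam hl.le
    have hg' := hg
    rw [eq_eq] at hg'
    have hlt : 0 < lam * t := mul_pos hl ht
    obtain ⟨h1, h2, h3⟩ := Pool.Agent.TH604.ST.root_bd Pool.Agent.TH604.ST.Root.rt2
      Pool.Agent.TH604.ST.p_jn Pool.Agent.TH604.ST.p_vj Pool.Agent.TH604.ST.p_bdg J hJ ht.le
      hlt.le hg'
    refine ⟨hg, h1, h2, ?_, ?_⟩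
    · rw [h3, stir_eq]
      have e : (meanLen : Perm V → ℝ) = fun g => (∑ v, Pool.Agent.W805.LR.len g v) /
          Pool.Agent.TH604.ST.nn V := by
        funext g
        unfold meanLen Pool.Agent.TH604.ST.nn
        simp only [len_eq]
      rw [e]
    · intro K hK
      have h4 := Pool.Agent.TH604.ST.sandwich J hJ ht hlt hg' K hK
      have e : (longMass K : Perm V → ℝ) = Pool.Agent.TH604.ST.frac K := funext (mass_eq K)
      rw [stir_eq, e]
      exact h4
  · intro a b ha hab hb
    have ha0 : 0 < a := lt_of_lt_of_le hκ ha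
    have hga := hm a ha0.le
    have hgb := hm b (ha0.le.trans hab)
    rw [eq_eq] at hga hgb
    have hab' : a * t ≤ b * t := mul_le_mul_of_nonneg_right hab ht.le
    constructor
    · exact Pool.Agent.TH604.ST.root_mono Pool.Agent.TH604.ST.Root.rt2
        Pool.Agent.TH604.ST.p_jn Pool.Agent.TH604.ST.p_vj Pool.Agent.TH604.ST.p_bdg J hJ ht.le
        (mul_pos ha0 ht).le hab' hga hgb
    · rcases hab.eq_or_lt with rfl | hlt
      · have := hga.unique hgb
        rw [sub_self, Real.sqrt_zero, mul_zero, add_zero]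
      · obtain ⟨h1, _, _⟩ := Pool.Agent.TH604.ST.root_bd Pool.Agent.TH604.ST.Root.rt2
          Pool.Agent.TH604.ST.p_jn Pool.Agent.TH604.ST.p_vj Pool.Agent.TH604.ST.p_bdg J hJ ht.le
          (mul_pos ha0 ht).le hga
        obtain ⟨_, h2, _⟩ := Pool.Agent.TH604.ST.root_bd Pool.Agent.TH604.ST.Root.rt2
          Pool.Agent.TH604.ST.p_jn Pool.Agent.TH604.ST.p_vj Pool.Agent.TH604.ST.p_bdg J hJ ht.le
          (mul_pos (ha0.trans hlt) ht).le hgb
        have hba : 0 < b - a := sub_pos.2 hlt
        obtain ⟨δ, hδ⟩ : ∃ δ, δ = Real.sqrt (5 * t / c) * Real.sqrt (b - a) := ⟨_, rfl⟩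
        have hδ0 : 0 < δ := by
          rw [hδ]
          exact mul_pos (Real.sqrt_pos.2 (by positivity)) (Real.sqrt_pos.2 hba)
        have hδ2 : δ ^ 2 = 5 * t / c * (b - a) := by
          rw [hδ, mul_pow, Real.sq_sqrt (by positivity), Real.sq_sqrt hba.le]
        rw [← hδ]
        rcases le_total δ 1 with hδ1 | hδ1
        · refine Pool.Agent.TH604.ST.root_lip Pool.Agent.TH604.ST.Root.root
            Pool.Agent.TH604.ST.Root.rt2 Pool.Agent.TH604.ST.p_jn Pool.Agent.TH604.ST.p_vj
            Pool.Agent.TH604.ST.p_bdg J hJ ht.le (A := Λ * t) (mul_pos ha0 ht) hab'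
            (mul_le_mul_of_nonneg_right hb ht.le) hga hgb hδ0 hδ1 ?_
          have k1 : c ≤ Real.exp (-(Λ * t)) * (a * t) ^ 3 := by
            rw [hc]
            refine mul_le_mul_of_nonneg_left ?_ (Real.exp_pos _).le
            exact pow_le_pow_left₀ (by positivity) (mul_le_mul_of_nonneg_right ha ht.le) 3
          have k2 : c * δ ^ 2 = 5 * (t * (b - a)) := by
            rw [hδ2]
            field_simp
          have k3 : c * δ ^ 2 ≤ Real.exp (-(Λ * t)) * (a * t) ^ 3 * δ ^ 2 :=
            mul_le_mul_of_nonneg_right k1 (sq_nonneg δ)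
          have k4 : 0 < t * (b - a) := mul_pos ht hba
          nlinarith
        · linarith
  · intro hN hD lam hl hl2 K hK1 hK2
    have hg := hm lam (hκ.le.trans hl)
    rw [eq_eq] at hg
    have h1 := (H V hN J hJ hD lam hl hl2 (m lam) hg).1 K hK1 hK2
    rw [stir_eq, add_eq]
    have e : (fun g : Perm V => (longMass K g - m lam) ^ 2) =
        fun g => (Pool.Agent.TH604.ST.frac K g - m lam) ^ 2 := by
      funext g
      rw [mass_eq]
    rw [e]
    exact h1

end Pool.Agent.Results.MP_6c3d62_pr.MeanFieldMassLaw
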